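import Mathlib

set_option autoImplicit false

open Module Submodule

namespace Pool.Agent.Results.MP_59a3d4_lc.NoSplit

variable (F : Type) [Field F]

abbrev R := (ℕ →₀ F) × (ℕ →₀ F)

noncomputable def vec (i : ℕ × Bool) : R F :=
  (Finsupp.single i.1 1, Finsupp.single (i.1 + 1) 1 - if i.2 then Finsupp.single i.1 1 else 0)

theorem vec_inj : Function.Injective (vec F) := by
  rintro ⟨n, b⟩ ⟨m, c⟩ h
  have h1 : (Finsupp.single n 1 : ℕ →₀ F) = Finsupp.single m 1 := congrArg Prod.fst h
  have h2 : n = m := Finsupp.single_left_injective one_ne_zero h1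
  subst h2
  have h3 := DFunLike.congr_fun (congrArg Prod.snd h) n
  cases b <;> cases c <;> simp [vec] at h3 ⊢

theorem span_top : span F (Set.range (vec F)) = ⊤ := by
  have hf : ∀ n, ((0, Finsupp.single n 1) : R F) ∈ span F (Set.range (vec F)) := by
    intro n
    have := sub_mem (subset_span (R := F) ⟨(n, false), rfl⟩ : vec F (n, false) ∈ span F (Set.range (vec F)))
      (subset_span (R := F) ⟨(n, true), rfl⟩ : vec F (n, true) ∈ span F (Set.range (vec F)))
    simpa [vec] using this
  have he : ∀ n, ((Finsupp.single n 1, 0) : R F) ∈ span F (Set.range (vec F)) := by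
    intro n
    have := sub_mem (subset_span (R := F) ⟨(n, false), rfl⟩ : vec F (n, false) ∈ span F (Set.range (vec F)))
      (hf (n + 1))
    simpa [vec] using this
  rw [eq_top_iff]
  rintro ⟨x, y⟩ -
  have h1 : ((x, 0) : R F) ∈ span F (Set.range (vec F)) := by
    induction x using Finsupp.induction_linear with
    | zero => exact zero_mem _
    | add a b ha hb => simpa using add_mem ha hb
    | single n c => simpa using smul_mem _ c (he n)
  have h2 : ((0, y) : R F) ∈ span F (Set.range (vec F)) := by
    induction y using Finsupp.induction_linear with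
    | zero => exact zero_mem _
    | add a b ha hb => simpa using add_mem ha hb
    | single n c => simpa using smul_mem _ c (hf n)
  simpa using add_mem h1 h2

/-- A linear map sending the family vec to the standard basis. -/
noncomputable def back : R F →ₗ[F] (ℕ × Bool →₀ F) :=
  LinearMap.coprod
    (Finsupp.linearCombination F fun n => Finsupp.single (n, false) 1
      - (Finsupp.single (n + 1, false) 1 - Finsupp.single (n + 1, true) 1))
    (Finsupp.linearCombination F fun n => Finsupp.single (n, false) 1 - Finsupp.single (n, true) 1)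

theorem back_vec (i : ℕ × Bool) : back F (vec F i) = Finsupp.single i 1 := by
  obtain ⟨n, b⟩ := i
  cases b <;> simp [back, vec]

theorem li : LinearIndependent F (vec F) := by
  apply LinearIndependent.of_comp (back F)
  have : back F ∘ vec F = fun i => Finsupp.single i 1 := funext (back_vec F)
  rw [this]
  exact Finsupp.linearIndependent_single_one F _

/-- Over every field there are a space of countably infinite dimension, a direct sum
decomposition and a basis with no good splitting. -/
theorem result : ∃ (V₁ V₂ : Submodule F ((ℕ →₀ F) × (ℕ →₀ F))) (B : Set ((ℕ →₀ F) × (ℕ →₀ F))),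
    IsCompl V₁ V₂ ∧ LinearIndepOn F id B ∧ span F B = ⊤ ∧
    ¬ ∃ B₁ B₂ : Set ((ℕ →₀ F) × (ℕ →₀ F)), Disjoint B₁ B₂ ∧ B₁ ∪ B₂ = B ∧
      IsCompl V₁ (span F B₁) ∧ IsCompl V₂ (span F B₂) := by
  classical
  refine ⟨LinearMap.range (LinearMap.inl F _ _), LinearMap.range (LinearMap.inr F _ _),
    Set.range (vec F), LinearMap.isCompl_range_inl_inr, (li F).linearIndepOn_id, span_top F, ?_⟩
  rintro ⟨B₁, B₂, hd, hu, h1, h2⟩
  have key : ∀ (φ : R F →ₗ[F] F) (V : Submodule F (R F)) (S : Set (R F)), IsCompl V (span F S) →
      (∀ v ∈ V, φ v = 0) → (∀ v ∈ S, φ v = 0) → φ = 0 := by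
    intro φ V S hc hV hS
    rw [← LinearMap.ker_eq_top, eq_top_iff, ← hc.sup_eq_top]
    exact sup_le hV (span_le.2 hS)
  have hsub1 : B₁ ⊆ Set.range (vec F) := hu ▸ Set.subset_union_left
  have hsub2 : B₂ ⊆ Set.range (vec F) := hu ▸ Set.subset_union_right
  have hone : ∀ n, ¬ (vec F (n, true) ∈ B₁ ∧ vec F (n, false) ∈ B₁) := by
    rintro n ⟨ht, hf⟩
    have := key ((Finsupp.lapply n).comp (LinearMap.fst F _ _)) _ _ h2
      (by rintro _ ⟨y, rfl⟩; simp)
      (by
        intro v hv
        obtain ⟨⟨m, b⟩, rfl⟩ := hsub2 hv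
        have hne : m ≠ n := by
          rintro rfl
          cases b
          · exact Set.disjoint_left.1 hd hf hv
          · exact Set.disjoint_left.1 hd ht hv
        simp [vec, hne])
    have h3 := DFunLike.congr_fun this (Finsupp.single n 1, 0)
    simp at h3
  let a : ℕ → F := fun n => Nat.rec 1 (fun k ak => if vec F (k, true) ∈ B₁ then ak else 0) n
  have ha : ∀ k, a (k + 1) = if vec F (k, true) ∈ B₁ then a k else 0 := fun k => rfl
  have := key ((Finsupp.linearCombination F a).comp (LinearMap.snd F _ _)) _ _ h1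
    (by rintro _ ⟨y, rfl⟩; simp)
    (by
      intro v hv
      obtain ⟨⟨m, b⟩, rfl⟩ := hsub1 hv
      cases b
      · have h4 : vec F (m, true) ∉ B₁ := fun h => hone m ⟨h, hv⟩
        have h5 := ha m
        rw [if_neg h4] at h5
        simp [vec, h5]
      · have h5 := ha m
        rw [if_pos hv] at h5
        simp [vec, h5])
  have h3 := DFunLike.congr_fun this (0, Finsupp.single 0 1)
  simp [a] at h3

end Pool.Agent.Results.MP_59a3d4_lc.NoSplit
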